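import Pool.Agent.Helper53.CL.Main436

set_option autoImplicit false

namespace Pool.Agent.Results.MP_436c39_lc.EquivalentToPNP

open Pool.Agent.Helper53.CL

/-- The statement Q1 (every tractable reduct of every template has a type clone that corresponds
to a tractable CSP) holds if and only if P = NP. The definitions of `Q1`, `PEqNP` and of the
notions they use are in `Pool.Agent.Helper53.CL.Q1Defs`, `Pool.Agent.Helper53.CL.PNP` and
`Pool.Agent.Helper64.CanonDefs`. -/
theorem result : Q1 ↔ PEqNP := q1_iff

end Pool.Agent.Results.MP_436c39_lc.EquivalentToPNP
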