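import Pool.Agent.Helper53.CL.Main436

set_option autoImplicit false

open FirstOrder FirstOrder.Language Pool.Agent.Helper64.Canon

namespace Pool.Agent.Results.MP_436c39_lc.TypeClonesOfRationalOrder

attribute [local instance] ratStructure ratOrdered

/-- There are a finitely bounded ordered homogeneous Ramsey structure and a reduct `Γ` with
tractable CSP such that, for every tuple `c`, the type clone of the polymorphism clone of `Γ` over
`c` has a minion homomorphism to the projections. One can take the rational order and the single
relation `≠`. -/
theorem result :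
    ∃ (L : FirstOrder.Language.{0, 0}) (D : Type) (_ : L.Structure D) (r : ℕ)
      (Γ : Set (Rel D)), IsTemplate L D ∧ IsMaxArity L r ∧ IsReduct L Γ ∧ Tractable Γ ∧
        ∀ (n : ℕ) (c : Fin n → D), ProjectsTypeClone L c r Γ :=
  ⟨Language.order, ℚ, ratStructure, 2, {Pool.Agent.Helper53.CL.neRel}, template_rat,
    maxArity_order, Pool.Agent.Helper53.CL.reduct_ne, Pool.Agent.Helper53.CL.tractable_ne,
    fun _ c => projects_typeClone c (Or.inl (Set.mem_singleton _))⟩

end Pool.Agent.Results.MP_436c39_lc.TypeClonesOfRationalOrder
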